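import Mathlib

set_option autoImplicit false

open MeasureTheory ProbabilityTheory Set Filter Topology

namespace Pool.Agent.Q280.CT

/-- The reference distribution function `W = cdf ν`: absolutely continuous, `W (a) = 0`, and
strictly increasing on the support interval `[a, d) = {y | a ≤ y, W y < 1}`. -/
structure Base (ν : Measure ℝ) (a : ℝ) : Prop where
  prob : IsProbabilityMeasure ν
  ac : ν ≪ volume
  zero : cdf ν a = 0
  strict : StrictMonoOn (cdf ν) {y | a ≤ y ∧ cdf ν y < 1}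

/-- The quantile `F⁻¹(p) = inf {x | F x ≥ p}` of the distribution function `F` of `μ`. -/
noncomputable def quantile (μ : Measure ℝ) (p : ℝ) : ℝ := sInf {x | p ≤ cdf μ x}

/-- The second raw moment `m_F²`. -/
noncomputable def mom2 (μ : Measure ℝ) : ℝ := ∫ x, x ^ 2 ∂μ

/-- The ratio `F⁻¹(p) / m_F`. -/
noncomputable def ratio (μ : Measure ℝ) (p : ℝ) : ℝ := quantile μ p / Real.sqrt (mom2 μ)

/-- The support interval `[0, d_F]` of `F` (for `a_F = 0`). -/
def suppInt (μ : Measure ℝ) : Set ℝ := {x | 0 ≤ x ∧ ∀ y < x, cdf μ y < 1}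

/-- Probability measure with left endpoint of the support `a_F = 0` and `0 < m_F < ∞`. -/
structure Adm (μ : Measure ℝ) : Prop where
  prob : IsProbabilityMeasure μ
  left : ∀ x < 0, cdf μ x = 0
  right : ∀ x > 0, 0 < cdf μ x
  integ : Integrable (fun x => x ^ 2) μ
  pos : 0 < mom2 μ

/-- `F ⪰_c W`: the hypograph of `W⁻¹ ∘ F` over the support interval of `F` is convex, that is
`W⁻¹ ∘ F` is concave there (`u ≤ W⁻¹ (F x)` is written `W u ≤ F x`). -/
structure Plus (ν : Measure ℝ) (a : ℝ) (μ : Measure ℝ) : Prop extends Adm μ where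
  conc : Convex ℝ {z : ℝ × ℝ | z.1 ∈ suppInt μ ∧ (a ≤ z.2 ∧ cdf ν z.2 < 1) ∧ cdf ν z.2 ≤ cdf μ z.1}

/-- `F ⪯_c W`: the epigraph of `W⁻¹ ∘ F` over the support interval of `F` is convex, that is
`W⁻¹ ∘ F` is convex there. -/
structure MinusAtom (ν : Measure ℝ) (a : ℝ) (μ : Measure ℝ) : Prop extends Adm μ where
  conv : Convex ℝ {z : ℝ × ℝ | z.1 ∈ suppInt μ ∧ (a ≤ z.2 ∧ cdf ν z.2 < 1) ∧ cdf μ z.1 ≤ cdf ν z.2}

/-- `F ⪯_c W`, with no atom at the left endpoint `0`. -/
structure Minus (ν : Measure ℝ) (a : ℝ) (μ : Measure ℝ) : Prop extends MinusAtom ν a μ where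
  noatom : cdf μ 0 = 0

section base

variable {ν : Measure ℝ} {a : ℝ}

lemma cont (h : Base ν a) : Continuous (cdf ν) := by
  have := h.prob
  rw [continuous_iff_continuousAt]
  intro x
  have h1 : ν {x} = 0 := h.ac (by simp)
  have h2 := (cdf ν).measure_singleton x
  rw [measure_cdf, h1] at h2
  have h3 : Function.leftLim (cdf ν) x = cdf ν x := by
    apply le_antisymm ((monotone_cdf ν).leftLim_le le_rfl)
    have := ENNReal.ofReal_eq_zero.mp h2.symm
    linarith
  rw [(monotone_cdf ν).continuousAt_iff_leftLim_eq_rightLim, h3, (cdf ν).rightLim_eq]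

lemma cdf_nonneg' (ν : Measure ℝ) (x : ℝ) : 0 ≤ cdf ν x := cdf_nonneg ν x

lemma strict' (h : Base ν a) {x y : ℝ} (hx : a ≤ x) (hx1 : cdf ν x < 1) (hxy : x < y) :
    cdf ν x < cdf ν y := by
  rcases lt_or_ge (cdf ν y) 1 with h1 | h1
  · exact h.strict ⟨hx, hx1⟩ ⟨hx.trans hxy.le, h1⟩ hxy
  · exact hx1.trans_le h1

lemma exists_val (h : Base ν a) {t : ℝ} (h0 : 0 < t) (h1 : t < 1) : ∃ y, cdf ν y = t ∧ a < y := by
  have := h.prob
  have hlt : ∃ x, t ≤ cdf ν x := by
    have := (tendsto_cdf_atTop ν).eventually (lt_mem_nhds h1)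
    obtain ⟨x, hx⟩ := this.exists
    exact ⟨x, hx.le⟩
  obtain ⟨x, hx⟩ := hlt
  have hmem := mem_range_of_exists_le_of_exists_ge (cont h) ⟨a, by rw [h.zero]; exact h0.le⟩ ⟨x, hx⟩
  obtain ⟨y, hy⟩ := hmem
  refine ⟨y, hy, ?_⟩
  by_contra hya
  have := monotone_cdf ν (not_lt.mp hya)
  rw [h.zero, hy] at this
  linarith

/-- the point `y_p = W⁻¹(p)`. -/
lemma yp_spec (h : Base ν a) {p : ℝ} (h0 : 0 < p) (h1 : p < 1) :
    cdf ν (quantile ν p) = p ∧ a < quantile ν p ∧ ∀ y, p ≤ cdf ν y ↔ quantile ν p ≤ y := by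
  obtain ⟨y, hy, hay⟩ := exists_val h h0 h1
  have key : ∀ z, p ≤ cdf ν z ↔ y ≤ z := by
    intro z
    constructor
    · intro hz
      by_contra hlt
      push Not at hlt
      rcases le_total a z with haz | haz
      · have : cdf ν z < 1 := (monotone_cdf ν hlt.le).trans_lt (by rw [hy]; exact h1)
        have := strict' h haz this hlt
        rw [hy] at this
        linarith
      · have := monotone_cdf ν haz
        rw [h.zero] at this
        linarith
    · intro hz
      rw [← hy]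
      exact monotone_cdf ν hz
  have e : quantile ν p = y := by
    unfold quantile
    have : {x | p ≤ cdf ν x} = Ici y := by
      ext z; simp only [Set.mem_ofPred_eq, mem_Ici]; exact key z
    rw [this, csInf_Ici]
  rw [e]
  exact ⟨hy, hay, key⟩

lemma base_pos (h : Base ν a) {x : ℝ} (hx : a < x) : 0 < cdf ν x := by
  have := strict' h le_rfl (by rw [h.zero]; norm_num) hx
  rwa [h.zero] at this

lemma base_zero_of_le (h : Base ν a) {x : ℝ} (hx : x ≤ a) : cdf ν x = 0 := by
  apply le_antisymm _ (cdf_nonneg ν x)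
  rw [← h.zero]
  exact monotone_cdf ν hx

/-- quantile of an admissible distribution -/
lemma q_spec {μ : Measure ℝ} (h : Adm μ) {p : ℝ} (h0 : 0 < p) (h1 : p < 1) :
    (∀ x, p ≤ cdf μ x ↔ quantile μ p ≤ x) ∧ 0 ≤ quantile μ p := by
  have := h.prob
  have hne : {x | p ≤ cdf μ x}.Nonempty := by
    have := (tendsto_cdf_atTop μ).eventually (lt_mem_nhds h1)
    obtain ⟨x, hx⟩ := this.exists
    exact ⟨x, le_of_lt hx⟩
  have hbd : BddBelow {x | p ≤ cdf μ x} := by
    refine ⟨0, fun x hx => ?_⟩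
    by_contra hneg
    push Not at hneg
    have := h.left x hneg
    have hx' : p ≤ cdf μ x := hx
    linarith
  have hq0 : 0 ≤ quantile μ p := by
    apply le_csInf hne
    intro x hx
    by_contra hneg
    push Not at hneg
    have := h.left x hneg
    have hx' : p ≤ cdf μ x := hx
    linarith
  refine ⟨fun x => ⟨fun hx => csInf_le hbd hx, fun hx => ?_⟩, hq0⟩
  -- right-continuity
  have hle : ∀ y, quantile μ p < y → p ≤ cdf μ y := by
    intro y hy
    obtain ⟨z, hz, hzy⟩ := exists_lt_of_csInf_lt hne hy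
    exact le_trans hz (monotone_cdf μ hzy.le)
  have hr : p ≤ cdf μ (quantile μ p) := by
    have hc := ((cdf μ).right_continuous (quantile μ p))
    have hc' : Tendsto (cdf μ) (𝓝[>] (quantile μ p)) (𝓝 (cdf μ (quantile μ p))) :=
      hc.mono_left (nhdsWithin_mono _ Ioi_subset_Ici_self)
    apply ge_of_tendsto hc'
    filter_upwards [self_mem_nhdsWithin] with y hy
    exact hle y hy
  exact hr.trans (monotone_cdf μ hx)

lemma Ioi_eq (μ : Measure ℝ) [IsProbabilityMeasure μ] (x : ℝ) :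
    μ (Ioi x) = ENNReal.ofReal (1 - cdf μ x) := by
  have h1 : μ (Ioi x) = 1 - μ (Iic x) := by
    rw [← compl_Iic, prob_compl_eq_one_sub measurableSet_Iic]
  rw [h1, cdf_eq_real, ENNReal.ofReal_sub _ measureReal_nonneg, ENNReal.ofReal_one,
    measureReal_def, ENNReal.ofReal_toReal (measure_ne_top _ _)]

/-- layer cake comparison. -/
lemma mom_le {μ₁ μ₂ : Measure ℝ} [IsProbabilityMeasure μ₁] [IsProbabilityMeasure μ₂]
    {g₁ g₂ : ℝ → ℝ} (m₁ : Measurable g₁) (m₂ : Measurable g₂)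
    (n₁ : ∀ᵐ x ∂μ₁, 0 ≤ g₁ x) (n₂ : ∀ᵐ x ∂μ₂, 0 ≤ g₂ x)
    (h : ∀ t, 0 ≤ t → μ₁ {x | t < g₁ x} ≤ μ₂ {x | t < g₂ x})
    (i₂ : Integrable (fun x => g₂ x ^ 2) μ₂) :
    Integrable (fun x => g₁ x ^ 2) μ₁ ∧ ∫ x, g₁ x ^ 2 ∂μ₁ ≤ ∫ x, g₂ x ^ 2 ∂μ₂ := by
  have key : ∫⁻ x, ENNReal.ofReal (g₁ x ^ 2) ∂μ₁ ≤ ∫⁻ x, ENNReal.ofReal (g₂ x ^ 2) ∂μ₂ := by
    rw [lintegral_eq_lintegral_meas_lt μ₁ (Eventually.of_forall fun x => sq_nonneg _)
        (m₁.pow_const 2).aemeasurable,
      lintegral_eq_lintegral_meas_lt μ₂ (Eventually.of_forall fun x => sq_nonneg _)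
        (m₂.pow_const 2).aemeasurable]
    apply setLIntegral_mono' measurableSet_Ioi
    intro t ht
    have ht' : (0:ℝ) < t := ht
    have e₁ : μ₁ {x | t < g₁ x ^ 2} = μ₁ {x | Real.sqrt t < g₁ x} := by
      apply measure_congr
      filter_upwards [n₁] with x hx
      apply propext
      constructor
      · intro h1
        exact (Real.sqrt_lt' (by
          by_contra h0
          have : g₁ x = 0 := le_antisymm (not_lt.mp h0) hx
          have h1' : t < g₁ x ^ 2 := h1
          rw [this] at h1'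
          norm_num at h1'
          linarith)).mpr h1
      · intro h1
        have h1' : Real.sqrt t < g₁ x := h1
        exact (Real.sqrt_lt' ((Real.sqrt_nonneg t).trans_lt h1')).mp h1'
    have e₂ : μ₂ {x | t < g₂ x ^ 2} = μ₂ {x | Real.sqrt t < g₂ x} := by
      apply measure_congr
      filter_upwards [n₂] with x hx
      apply propext
      constructor
      · intro h1
        exact (Real.sqrt_lt' (by
          by_contra h0
          have : g₂ x = 0 := le_antisymm (not_lt.mp h0) hx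
          have h1' : t < g₂ x ^ 2 := h1
          rw [this] at h1'
          norm_num at h1'
          linarith)).mpr h1
      · intro h1
        have h1' : Real.sqrt t < g₂ x := h1
        exact (Real.sqrt_lt' ((Real.sqrt_nonneg t).trans_lt h1')).mp h1'
    rw [e₁, e₂]
    exact h _ (Real.sqrt_nonneg t)
  have hfin : ∫⁻ x, ENNReal.ofReal (g₂ x ^ 2) ∂μ₂ < ⊤ := by
    have := i₂.2
    rw [hasFiniteIntegral_iff_ofReal (Eventually.of_forall fun x => sq_nonneg _)] at this
    exact this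
  have i₁ : Integrable (fun x => g₁ x ^ 2) μ₁ := by
    refine ⟨(m₁.pow_const 2).aestronglyMeasurable, ?_⟩
    rw [hasFiniteIntegral_iff_ofReal (Eventually.of_forall fun x => sq_nonneg _)]
    exact key.trans_lt hfin
  refine ⟨i₁, ?_⟩
  rw [integral_eq_lintegral_of_nonneg_ae (Eventually.of_forall fun x => sq_nonneg _)
      i₁.aestronglyMeasurable,
    integral_eq_lintegral_of_nonneg_ae (Eventually.of_forall fun x => sq_nonneg _)
      i₂.aestronglyMeasurable]
  exact ENNReal.toReal_mono hfin.ne key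

lemma ae_nonneg {μ : Measure ℝ} (h : Adm μ) : ∀ᵐ x ∂μ, 0 ≤ x := by
  have := h.prob
  have h1 : μ (Iio 0) = 0 := by
    have e : Iio (0:ℝ) = ⋃ n : ℕ, Iic (-(1 / ((n:ℝ) + 1))) := by
      ext x
      simp only [mem_Iio, mem_iUnion, mem_Iic]
      constructor
      · intro hx
        obtain ⟨n, hn⟩ := exists_nat_one_div_lt (neg_pos.mpr hx)
        exact ⟨n, by linarith⟩
      · rintro ⟨n, hn⟩
        have : (0:ℝ) < 1 / ((n:ℝ) + 1) := by positivity
        linarith
    rw [e, measure_iUnion_null_iff]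
    intro n
    have h2 := h.left (-(1 / ((n:ℝ) + 1))) (by
      have : (0:ℝ) < 1 / ((n:ℝ) + 1) := by positivity
      linarith)
    rw [cdf_eq_real, measureReal_eq_zero_iff] at h2
    exact h2
  rw [ae_iff]
  convert h1 using 2
  ext x; simp

lemma base_ae (h : Base ν a) : ∀ᵐ y ∂ν, a < y := by
  have := h.prob
  have h2 := h.zero
  rw [cdf_eq_real, measureReal_eq_zero_iff] at h2
  rw [ae_iff]
  convert h2 using 2
  ext x; simp

end base

end Pool.Agent.Q280.CT
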