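import Pool.Agent.Q280.CT.Upper

set_option autoImplicit false

open MeasureTheory ProbabilityTheory Set Filter Topology

namespace Pool.Agent.Q280.CT

variable {ν : Measure ℝ} {a : ℝ}

/-- law of `(Y - c)_+`. -/
noncomputable def phi (ν : Measure ℝ) (c : ℝ) : Measure ℝ := ν.map (fun y => max (y - c) 0)

/-- law of `min((Y - c)_+ / δ, K)`. -/
noncomputable def psi (ν : Measure ℝ) (c δ K : ℝ) : Measure ℝ :=
  ν.map (fun y => min (max (y - c) 0 / δ) K)

lemma cdf_map (h : Base ν a) {f : ℝ → ℝ} (hf : Measurable f) (x : ℝ) :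
    cdf (ν.map f) x = ν.real (f ⁻¹' Iic x) := by
  have := h.prob
  have : IsProbabilityMeasure (ν.map f) := Measure.isProbabilityMeasure_map hf.aemeasurable
  rw [cdf_eq_real, map_measureReal_apply hf measurableSet_Iic]

lemma cdf_phi (h : Base ν a) (c x : ℝ) :
    cdf (phi ν c) x = if x < 0 then 0 else cdf ν (c + x) := by
  have := h.prob
  unfold phi
  rw [cdf_map h (by fun_prop)]
  split_ifs with hx
  · have : (fun y => max (y - c) 0) ⁻¹' Iic x = ∅ := by
      ext y
      simp only [mem_preimage, mem_Iic, mem_empty_iff_false, iff_false, not_le]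
      exact hx.trans_le (le_max_right _ _)
    rw [this]; simp
  · push Not at hx
    have : (fun y => max (y - c) 0) ⁻¹' Iic x = Iic (c + x) := by
      ext y
      simp only [mem_preimage, mem_Iic, max_le_iff]
      constructor
      · rintro ⟨h1, _⟩; linarith
      · intro h1; exact ⟨by linarith, hx⟩
    rw [this, cdf_eq_real]

lemma cdf_psi (h : Base ν a) {c δ K : ℝ} (hδ : 0 < δ) (hK : 0 < K) (x : ℝ) :
    cdf (psi ν c δ K) x = if x < 0 then 0 else if x < K then cdf ν (c + δ * x) else 1 := by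
  have := h.prob
  unfold psi
  rw [cdf_map h (by fun_prop)]
  split_ifs with hx hxK
  · have : (fun y => min (max (y - c) 0 / δ) K) ⁻¹' Iic x = ∅ := by
      ext y
      simp only [mem_preimage, mem_Iic, mem_empty_iff_false, iff_false, not_le]
      apply lt_min
      · exact hx.trans_le (by positivity)
      · linarith
    rw [this]; simp
  · push Not at hx
    have : (fun y => min (max (y - c) 0 / δ) K) ⁻¹' Iic x = Iic (c + δ * x) := by
      ext y
      simp only [mem_preimage, mem_Iic, min_le_iff]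
      constructor
      · rintro (h1 | h1)
        · rw [div_le_iff₀ hδ] at h1
          have := le_max_left (y - c) 0
          linarith
        · linarith
      · intro h1
        left
        rw [div_le_iff₀ hδ]
        apply max_le
        · linarith
        · positivity
    rw [this, cdf_eq_real]
  · push Not at hx hxK
    have : (fun y => min (max (y - c) 0 / δ) K) ⁻¹' Iic x = univ := by
      ext y
      simp only [mem_preimage, mem_Iic, mem_univ, iff_true]
      exact (min_le_right _ _).trans hxK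
    rw [this]; simp

lemma mom2_phi (ν : Measure ℝ) (c : ℝ) : mom2 (phi ν c) = A ν c := by
  unfold mom2 phi A
  rw [integral_map (by fun_prop) (by fun_prop)]

lemma mom2_psi (ν : Measure ℝ) (c δ K : ℝ) :
    mom2 (psi ν c δ K) = ∫ y, (min (max (y - c) 0 / δ) K) ^ 2 ∂ν := by
  unfold mom2 psi
  rw [integral_map (by fun_prop) (by fun_prop)]

lemma adm_phi (h : Base ν a) (hi : Integrable (fun y => y ^ 2) ν) {c : ℝ} (hc : a ≤ c)
    (hc1 : cdf ν c < 1) : Adm (phi ν c) := by
  have := h.prob
  refine ⟨Measure.isProbabilityMeasure_map (by fun_prop), fun x hx => ?_, fun x hx => ?_, ?_, ?_⟩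
  · rw [cdf_phi h, if_pos hx]
  · rw [cdf_phi h, if_neg (by linarith)]
    exact base_pos h (by linarith)
  · unfold phi
    rw [integrable_map_measure (by fun_prop) (by fun_prop)]
    exact int_A h hi c
  · rw [mom2_phi]
    obtain ⟨p', h1, h2⟩ := exists_between hc1
    have h0 : 0 < p' := (cdf_nonneg ν c).trans_lt h1
    obtain ⟨hy, _, hyp⟩ := yp_spec h h0 h2
    apply A_pos h (int_A h hi c) h0 h2
    by_contra hcon
    push Not at hcon
    have := (hyp c).mpr hcon
    linarith

lemma bdd_psi {c δ K : ℝ} (hδ : 0 < δ) (hK : 0 < K) (y : ℝ) :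
    0 ≤ min (max (y - c) 0 / δ) K ∧ (min (max (y - c) 0 / δ) K) ^ 2 ≤ K ^ 2 := by
  have h1 : 0 ≤ min (max (y - c) 0 / δ) K := le_min (by positivity) hK.le
  exact ⟨h1, pow_le_pow_left₀ h1 (min_le_right _ _) 2⟩

lemma int_psi (h : Base ν a) {c δ K : ℝ} (hδ : 0 < δ) (hK : 0 < K) :
    Integrable (fun y => (min (max (y - c) 0 / δ) K) ^ 2) ν := by
  have := h.prob
  refine (integrable_const (K ^ 2)).mono' (by fun_prop) (Eventually.of_forall fun y => ?_)
  rw [Real.norm_eq_abs, abs_of_nonneg (sq_nonneg _)]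
  exact (bdd_psi hδ hK y).2

lemma adm_psi (h : Base ν a) {c δ K : ℝ} (hδ : 0 < δ) (hK : 0 < K) (hc : a ≤ c)
    (hc1 : cdf ν c < 1) : Adm (psi ν c δ K) := by
  have := h.prob
  refine ⟨Measure.isProbabilityMeasure_map (by fun_prop), fun x hx => ?_, fun x hx => ?_, ?_, ?_⟩
  · rw [cdf_psi h hδ hK, if_pos hx]
  · rw [cdf_psi h hδ hK, if_neg (by linarith)]
    split_ifs
    · apply base_pos h
      have : 0 < δ * x := by positivity
      linarith
    · norm_num
  · unfold psi
    rw [integrable_map_measure (by fun_prop) (by fun_prop)]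
    exact int_psi h hδ hK
  · rw [mom2_psi, integral_pos_iff_support_of_nonneg (fun y => sq_nonneg _) (int_psi h hδ hK)]
    have h1 : Ioi c ⊆ Function.support fun y => (min (max (y - c) 0 / δ) K) ^ 2 := by
      intro y hy
      rw [mem_Ioi] at hy
      rw [Function.mem_support]
      have : 0 < min (max (y - c) 0 / δ) K := by
        apply lt_min _ hK
        rw [max_eq_left (by linarith)]
        apply div_pos _ hδ
        linarith
      positivity
    refine lt_of_lt_of_le ?_ (measure_mono h1)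
    rw [Ioi_eq]
    simp only [ENNReal.ofReal_pos]
    linarith

lemma combo_le {s t x z y w : ℝ} (hs : 0 ≤ s) (ht : 0 ≤ t) (hst : s + t = 1) (hx : x ≤ y)
    (hz : z ≤ w) (c : ℝ) : s * x + t * z + c ≤ s * (y + c) + t * (w + c) := by
  have h1 := mul_le_mul_of_nonneg_left hx hs
  have h2 := mul_le_mul_of_nonneg_left hz ht
  have h3 : (s + t) * c = c := by rw [hst, one_mul]
  linarith

lemma supp_combo {μ : Measure ℝ} {x z s t : ℝ} (hx : x ∈ suppInt μ) (hz : z ∈ suppInt μ)
    (hs : 0 ≤ s) (ht : 0 ≤ t) (hst : s + t = 1) : s * x + t * z ∈ suppInt μ := by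
  refine ⟨add_nonneg (mul_nonneg hs hx.1) (mul_nonneg ht hz.1), fun w hw => ?_⟩
  rcases le_total x z with h1 | h1
  · apply hz.2
    have := combo_le hs ht hst h1 (le_refl z) 0
    have h3 : (s + t) * z = z := by rw [hst, one_mul]
    linarith
  · apply hx.2
    have := combo_le hs ht hst (le_refl x) h1 0
    have h3 : (s + t) * x = x := by rw [hst, one_mul]
    linarith

lemma range_combo {u v s t : ℝ} (hu : a ≤ u ∧ cdf ν u < 1) (hv : a ≤ v ∧ cdf ν v < 1)
    (hs : 0 ≤ s) (ht : 0 ≤ t) (hst : s + t = 1) : a ≤ s * u + t * v ∧ cdf ν (s * u + t * v) < 1 := by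
  constructor
  · have := combo_le hs ht hst hu.1 hv.1 0
    have h3 : (s + t) * a = a := by rw [hst, one_mul]
    linarith
  · rcases le_total u v with h1 | h1
    · apply lt_of_le_of_lt (monotone_cdf ν _) hv.2
      have := combo_le hs ht hst h1 (le_refl v) 0
      have h3 : (s + t) * v = v := by rw [hst, one_mul]
      linarith
    · apply lt_of_le_of_lt (monotone_cdf ν _) hu.2
      have := combo_le hs ht hst (le_refl u) h1 0
      have h3 : (s + t) * u = u := by rw [hst, one_mul]
      linarith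

lemma plus_phi (h : Base ν a) (hi : Integrable (fun y => y ^ 2) ν) {c : ℝ} (hc : a ≤ c)
    (hc1 : cdf ν c < 1) : Plus ν a (phi ν c) := by
  refine ⟨adm_phi h hi hc hc1, ?_⟩
  have key : ∀ x u, 0 ≤ x → a ≤ u → cdf ν u < 1 → (cdf ν u ≤ cdf (phi ν c) x ↔ u ≤ c + x) := by
    intro x u hx hu hu1
    rw [cdf_phi h, if_neg (by linarith)]
    constructor
    · intro h1
      by_contra hcon
      push Not at hcon
      have h2 : cdf ν (c + x) < 1 := (monotone_cdf ν hcon.le).trans_lt hu1
      have := strict' h (by linarith) h2 hcon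
      linarith
    · intro h1; exact monotone_cdf ν h1
  rintro ⟨x, u⟩ ⟨hx, hu, hxu⟩ ⟨z, v⟩ ⟨hz, hv, hzv⟩ s t hs ht hst
  simp only at hx hu hxu hz hv hzv
  refine ⟨supp_combo hx hz hs ht hst, range_combo hu hv hs ht hst, ?_⟩
  simp only [Prod.smul_mk, Prod.mk_add_mk, smul_eq_mul]
  have hx0 := hx.1
  have hz0 := hz.1
  have hr := range_combo hu hv hs ht hst
  rw [key _ _ (by positivity) hr.1 hr.2]
  rw [key _ _ hx0 hu.1 hu.2] at hxu
  rw [key _ _ hz0 hv.1 hv.2] at hzv
  have := combo_le hs ht hst hxu hzv 0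
  have h3 : (s + t) * c = c := by rw [hst, one_mul]
  linarith

lemma minus_phi (h : Base ν a) (hi : Integrable (fun y => y ^ 2) ν) : Minus ν a (phi ν a) := by
  have ha1 : cdf ν a < 1 := by rw [h.zero]; norm_num
  refine ⟨⟨adm_phi h hi le_rfl ha1, ?_⟩, ?_⟩
  · have key : ∀ x u, 0 ≤ x → a ≤ u → cdf ν u < 1 → (cdf (phi ν a) x ≤ cdf ν u ↔ a + x ≤ u) := by
      intro x u hx hu hu1
      rw [cdf_phi h, if_neg (by linarith)]
      constructor
      · intro h1
        by_contra hcon
        push Not at hcon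
        have := strict' h hu hu1 hcon
        linarith
      · intro h1; exact monotone_cdf ν h1
    rintro ⟨x, u⟩ ⟨hx, hu, hxu⟩ ⟨z, v⟩ ⟨hz, hv, hzv⟩ s t hs ht hst
    simp only at hx hu hxu hz hv hzv
    refine ⟨supp_combo hx hz hs ht hst, range_combo hu hv hs ht hst, ?_⟩
    simp only [Prod.smul_mk, Prod.mk_add_mk, smul_eq_mul]
    have hx0 := hx.1
    have hz0 := hz.1
    have hr := range_combo hu hv hs ht hst
    rw [key _ _ (by positivity) hr.1 hr.2]
    rw [key _ _ hx0 hu.1 hu.2] at hxu
    rw [key _ _ hz0 hv.1 hv.2] at hzv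
    have := combo_le hs ht hst hxu hzv 0
    have h3 : (s + t) * a = a := by rw [hst, one_mul]
    linarith
  · rw [cdf_phi h, if_neg (lt_irrefl _), add_zero, h.zero]

lemma minusAtom_psi (h : Base ν a) {c δ K : ℝ} (hδ : 0 < δ) (hK : 0 < K) (hc : a ≤ c)
    (hc1 : cdf ν c < 1) : MinusAtom ν a (psi ν c δ K) := by
  refine ⟨adm_psi h hδ hK hc hc1, ?_⟩
  have key : ∀ x u, 0 ≤ x → a ≤ u → cdf ν u < 1 →
      (cdf (psi ν c δ K) x ≤ cdf ν u ↔ x < K ∧ c + δ * x ≤ u) := by
    intro x u hx hu hu1
    rw [cdf_psi h hδ hK, if_neg (by linarith)]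
    constructor
    · intro h1
      split_ifs at h1 with hxK
      · refine ⟨hxK, ?_⟩
        by_contra hcon
        push Not at hcon
        have := strict' h hu hu1 hcon
        linarith
      · linarith
    · rintro ⟨hxK, h1⟩
      rw [if_pos hxK]
      exact monotone_cdf ν h1
  rintro ⟨x, u⟩ ⟨hx, hu, hxu⟩ ⟨z, v⟩ ⟨hz, hv, hzv⟩ s t hs ht hst
  simp only at hx hu hxu hz hv hzv
  refine ⟨supp_combo hx hz hs ht hst, range_combo hu hv hs ht hst, ?_⟩
  simp only [Prod.smul_mk, Prod.mk_add_mk, smul_eq_mul]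
  have hx0 := hx.1
  have hz0 := hz.1
  have hr := range_combo hu hv hs ht hst
  rw [key _ _ (by positivity) hr.1 hr.2]
  rw [key _ _ hx0 hu.1 hu.2] at hxu
  rw [key _ _ hz0 hv.1 hv.2] at hzv
  obtain ⟨h1, h2⟩ := hxu
  obtain ⟨h3, h4⟩ := hzv
  constructor
  · rcases eq_or_lt_of_le hs with hs0 | hs0
    · rw [← hs0] at hst ⊢
      have : t = 1 := by linarith
      rw [this]; linarith
    · nlinarith
  · have := combo_le hs ht hst h2 h4 0
    have h3 : (s + t) * c = c := by rw [hst, one_mul]
    linarith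

lemma minus_psi (h : Base ν a) {δ K : ℝ} (hδ : 0 < δ) (hK : 0 < K) : Minus ν a (psi ν a δ K) := by
  have ha1 : cdf ν a < 1 := by rw [h.zero]; norm_num
  refine ⟨minusAtom_psi h hδ hK le_rfl ha1, ?_⟩
  rw [cdf_psi h hδ hK, if_neg (lt_irrefl _), if_pos hK, mul_zero, add_zero, h.zero]

lemma quantile_phi (h : Base ν a) {c p : ℝ} (h0 : 0 < p) (h1 : p < 1) :
    quantile (phi ν c) p = max (quantile ν p - c) 0 := by
  obtain ⟨hy, hay, hyp⟩ := yp_spec h h0 h1
  have e : {x | p ≤ cdf (phi ν c) x} = Ici (max (quantile ν p - c) 0) := by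
    ext x
    simp only [Set.mem_ofPred_eq, mem_Ici, max_le_iff]
    rw [cdf_phi h]
    split_ifs with hx
    · constructor
      · intro h2; linarith
      · rintro ⟨_, h2⟩; linarith
    · push Not at hx
      rw [hyp]
      constructor
      · intro h2; exact ⟨by linarith, hx⟩
      · rintro ⟨h2, _⟩; linarith
  conv_lhs => unfold quantile
  rw [e, csInf_Ici]

lemma quantile_psi (h : Base ν a) {c δ K p : ℝ} (hδ : 0 < δ) (hK : 0 < K) (h0 : 0 < p)
    (h1 : p < 1) : quantile (psi ν c δ K) p = min (max (quantile ν p - c) 0 / δ) K := by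
  obtain ⟨hy, hay, hyp⟩ := yp_spec h h0 h1
  have e : {x | p ≤ cdf (psi ν c δ K) x} = Ici (min (max (quantile ν p - c) 0 / δ) K) := by
    ext x
    simp only [Set.mem_ofPred_eq, mem_Ici, min_le_iff]
    rw [cdf_psi h hδ hK, div_le_iff₀ hδ, max_le_iff]
    split_ifs with hx hxK
    · constructor
      · intro h2; linarith
      · rintro (⟨_, h2⟩ | h2)
        · have : x * δ < 0 := mul_neg_of_neg_of_pos hx hδ
          linarith
        · linarith
    · push Not at hx
      rw [hyp]
      constructor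
      · intro h2; left; exact ⟨by linarith, by positivity⟩
      · rintro (⟨h2, _⟩ | h2)
        · linarith
        · linarith
    · push Not at hx hxK
      constructor
      · intro _; right; exact hxK
      · intro _; exact h1.le
  conv_lhs => unfold quantile
  rw [e, csInf_Ici]

end Pool.Agent.Q280.CT
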