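import Pool.Agent.Q280.CT.Basic

set_option autoImplicit false

open MeasureTheory ProbabilityTheory Set Filter Topology

namespace Pool.Agent.Q280.CT

variable {ν : Measure ℝ} {a : ℝ}

/-- `∫ (y - c)_+² dW`. -/
noncomputable def A (ν : Measure ℝ) (c : ℝ) : ℝ := ∫ y, (max (y - c) 0) ^ 2 ∂ν

lemma int_A (h : Base ν a) (hi : Integrable (fun y => y ^ 2) ν) (c : ℝ) :
    Integrable (fun y => (max (y - c) 0) ^ 2) ν := by
  have := h.prob
  have h1 : Integrable (fun y : ℝ => 2 * y ^ 2 + 2 * c ^ 2) ν :=
    (hi.const_mul 2).add (integrable_const _)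
  refine h1.mono' (by fun_prop) (Eventually.of_forall fun y => ?_)
  rw [Real.norm_eq_abs, abs_of_nonneg (sq_nonneg _)]
  rcases le_total (y - c) 0 with h2 | h2
  · rw [max_eq_right h2]; nlinarith [sq_nonneg y, sq_nonneg c]
  · rw [max_eq_left h2]; nlinarith [sq_nonneg (y + c)]

lemma nu_Ioi (h : Base ν a) (x : ℝ) : ν (Ioi x) = ENNReal.ofReal (1 - cdf ν x) := by
  have := h.prob
  exact Ioi_eq ν x

lemma A_lower (h : Base ν a) {c : ℝ} (hi : Integrable (fun y => (max (y - c) 0) ^ 2) ν)
    {p : ℝ} (h0 : 0 < p) (h1 : p < 1) (hc : c < quantile ν p) :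
    (quantile ν p - c) ^ 2 * (1 - p) ≤ A ν c := by
  have := h.prob
  obtain ⟨hy, _, _⟩ := yp_spec h h0 h1
  set y := quantile ν p with hydef
  have h2 : ∫ x, (Ioi y).indicator (fun _ => (y - c) ^ 2) x ∂ν ≤ A ν c := by
    apply integral_mono_of_nonneg
    · exact Eventually.of_forall fun x => indicator_nonneg (fun _ _ => sq_nonneg _) x
    · exact hi
    · exact Eventually.of_forall fun x => by
        by_cases hx : x ∈ Ioi y
        · simp only [indicator_of_mem hx]
          have hx' : y < x := hx
          rw [max_eq_left (by linarith)]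
          nlinarith
        · simp only [indicator_of_notMem hx]
          positivity
  rw [integral_indicator measurableSet_Ioi, setIntegral_const, smul_eq_mul, measureReal_def,
    nu_Ioi h, hy, ENNReal.toReal_ofReal (by linarith)] at h2
  linarith

lemma A_pos (h : Base ν a) {c : ℝ} (hi : Integrable (fun y => (max (y - c) 0) ^ 2) ν)
    {p : ℝ} (h0 : 0 < p) (h1 : p < 1) (hc : c < quantile ν p) : 0 < A ν c := by
  have := A_lower h hi h0 h1 hc
  have h2 : 0 < (quantile ν p - c) ^ 2 * (1 - p) := by
    have : 0 < quantile ν p - c := by linarith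
    have : 0 < 1 - p := by linarith
    positivity
  linarith

lemma supp_of_lt {μ : Measure ℝ} (h : Adm μ) {t : ℝ} (h0 : 0 < t) (h1 : t < 1) :
    quantile μ t ∈ suppInt μ := by
  obtain ⟨hq, hq0⟩ := q_spec h h0 h1
  refine ⟨hq0, fun w hw => ?_⟩
  by_contra hcon
  push Not at hcon
  have := (hq w).mp (by linarith)
  linarith

lemma zero_supp {μ : Measure ℝ} (h : Adm μ) : (0:ℝ) ∈ suppInt μ :=
  ⟨le_rfl, fun y hy => by rw [h.left y hy]; norm_num⟩

/-- The linear majorant of `W⁻¹ ∘ F` for `F ⪰_c W`. -/
lemma plus_line (h : Base ν a) {μ : Measure ℝ} (hμ : Plus ν a μ) {p : ℝ} (h0 : 0 < p) (h1 : p < 1)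
    (hq : 0 < quantile μ p) :
    ∃ g c : ℝ, 0 < g ∧ a ≤ c ∧ c < quantile ν p ∧ g * quantile μ p = quantile ν p - c ∧
      ∀ x, 0 ≤ x → cdf μ x ≤ cdf ν (c + g * x) := by
  obtain ⟨hy, hay, hyp⟩ := yp_spec h h0 h1
  obtain ⟨hqp, _⟩ := q_spec hμ.toAdm h0 h1
  set y := quantile ν p with hydef
  set q := quantile μ p with hqdef
  set H : Set (ℝ × ℝ) := {z : ℝ × ℝ | z.1 ∈ suppInt μ ∧ (a ≤ z.2 ∧ cdf ν z.2 < 1) ∧
    cdf ν z.2 ≤ cdf μ z.1} with hH
  have hconv : Convex ℝ H := hμ.conc
  have h0a : ((0:ℝ), a) ∈ H := by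
    refine ⟨zero_supp hμ.toAdm, ⟨le_rfl, ?_⟩, ?_⟩
    · simp only [h.zero]; norm_num
    · simp only [h.zero]; exact cdf_nonneg μ 0
  have hleft : ∀ x u, (x, u) ∈ H → x < q → u < y := by
    intro x u hxu hx
    by_contra hcon
    push Not at hcon
    have h2 := (hyp u).mpr hcon
    have h3 : cdf ν u ≤ cdf μ x := hxu.2.2
    have h4 := (hqp x).mp (h2.trans h3)
    linarith
  -- interpolation claim
  have claimR : ∀ x u z v, (x, u) ∈ H → (z, v) ∈ H → x < q → q ≤ z →
      (v - y) * (q - x) ≤ (y - u) * (z - q) := by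
    intro x u z v hxu hzv hx hz
    by_contra hcon
    push Not at hcon
    have hu := hleft x u hxu hx
    have hv : y < v := by
      by_contra hv
      push Not at hv
      have h2 : (v - y) * (q - x) ≤ 0 := by nlinarith
      have h3 : 0 ≤ (y - u) * (z - q) := by
        apply mul_nonneg <;> linarith
      linarith
    have hvu : 0 < v - u := by linarith
    have hzx : 0 < z - x := by linarith
    -- θ0 < θ
    have h4 : (y - u) / (v - u) < (q - x) / (z - x) := by
      rw [div_lt_div_iff₀ hvu hzx]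
      nlinarith
    obtain ⟨θ, hθ1, hθ2⟩ := exists_between h4
    have hθ0 : 0 < θ := lt_of_le_of_lt (div_nonneg (by linarith) hvu.le) hθ1
    have hθle : θ < 1 := by
      refine hθ2.trans_le ?_
      rw [div_le_one hzx]; linarith
    have hmem := hconv hxu hzv (show (0:ℝ) ≤ 1 - θ by linarith) hθ0.le (by ring)
    have hx' : (1 - θ) * x + θ * z < q := by
      rw [lt_div_iff₀ hzx] at hθ2
      nlinarith
    have hu' : y < (1 - θ) * u + θ * v := by
      rw [div_lt_iff₀ hvu] at hθ1
      nlinarith
    have := hleft _ _ hmem (by simpa using hx')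
    simp at this
    linarith
  set Ls : Set ℝ := {s | ∃ x u, (x, u) ∈ H ∧ x < q ∧ s = (y - u) / (q - x)} with hLs
  have hne : Ls.Nonempty := ⟨_, 0, a, h0a, hq, rfl⟩
  have hbd : BddBelow Ls := by
    refine ⟨0, ?_⟩
    rintro s ⟨x, u, hxu, hx, rfl⟩
    have := hleft x u hxu hx
    apply div_nonneg <;> linarith
  set g := sInf Ls with hg
  have hgle : ∀ x u, (x, u) ∈ H → x < q → u ≤ y - g * (q - x) := by
    intro x u hxu hx
    have h2 : g ≤ (y - u) / (q - x) := csInf_le hbd ⟨x, u, hxu, hx, rfl⟩
    rw [le_div_iff₀ (by linarith)] at h2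
    linarith
  have hgright : ∀ z v, (z, v) ∈ H → q ≤ z → v ≤ y + g * (z - q) := by
    intro z v hzv hz
    rcases eq_or_lt_of_le hz with rfl | hz'
    · have h2 := claimR 0 a q v h0a hzv hq le_rfl
      have h3 : (v - y) * (q - 0) ≤ 0 := by simpa using h2
      have : v - y ≤ 0 := by
        by_contra hcon
        push Not at hcon
        nlinarith
      simp; linarith
    · have h2 : (v - y) / (z - q) ≤ g := by
        apply le_csInf hne
        rintro s ⟨x, u, hxu, hx, rfl⟩
        rw [div_le_div_iff₀ (by linarith) (by linarith)]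
        exact claimR x u z v hxu hzv hx hz
      rw [div_le_iff₀ (by linarith)] at h2
      linarith
  have hall : ∀ z v, (z, v) ∈ H → v ≤ y + g * (z - q) := by
    intro z v hzv
    rcases lt_or_ge z q with hz | hz
    · have := hgle z v hzv hz; linarith
    · exact hgright z v hzv hz
  have hgpos : 0 < g := by
    -- a point with v > y and z > q
    obtain ⟨p', hp1, hp2⟩ := exists_between h1
    obtain ⟨p'', hp3, hp4⟩ := exists_between hp1
    have hp'0 : 0 < p' := h0.trans hp1
    have hp''0 : 0 < p'' := h0.trans hp3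
    have hp''1 : p'' < 1 := hp4.trans hp2
    obtain ⟨hz, _⟩ := q_spec hμ.toAdm hp'0 hp2
    obtain ⟨hv, hav, hvp⟩ := yp_spec h hp''0 hp''1
    have hzF : p' ≤ cdf μ (quantile μ p') := (hz _).mpr le_rfl
    have hmem : (quantile μ p', quantile ν p'') ∈ H := by
      refine ⟨supp_of_lt hμ.toAdm hp'0 hp2, ⟨hav.le, ?_⟩, ?_⟩
      · simp only [hv]; exact hp''1
      · simp only [hv]; linarith
    have hvy : y < quantile ν p'' := by
      by_contra hcon
      push Not at hcon
      have := monotone_cdf ν hcon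
      rw [hy, hv] at this
      linarith
    have hzq : q ≤ quantile μ p' := (hqp _).mp (by linarith)
    have := hall _ _ hmem
    by_contra hcon
    push Not at hcon
    nlinarith
  refine ⟨g, y - g * q, hgpos, ?_, ?_, by ring, ?_⟩
  · have := hgle 0 a h0a hq; linarith
  · have : 0 < g * q := by positivity
    linarith
  · intro x hx
    by_contra hcon
    push Not at hcon
    set b := y - g * q + g * x with hb
    obtain ⟨t, ht1, ht2⟩ := exists_between hcon
    have ht0 : 0 < t := (cdf_nonneg ν b).trans_lt ht1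
    have htl : t < 1 := ht2.trans_le (cdf_le_one μ x)
    obtain ⟨hz, _⟩ := q_spec hμ.toAdm ht0 htl
    obtain ⟨hv, hav, _⟩ := yp_spec h ht0 htl
    have hzx : quantile μ t ≤ x := (hz x).mp ht2.le
    have hmem : (quantile μ t, quantile ν t) ∈ H := by
      refine ⟨supp_of_lt hμ.toAdm ht0 htl, ⟨hav.le, ?_⟩, ?_⟩
      · simp only [hv]; exact htl
      · simp only [hv]; exact (hz _).mpr le_rfl
    have h2 := hall _ _ hmem
    have h3 : quantile ν t ≤ b := by
      have : g * (quantile μ t - q) ≤ g * (x - q) := by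
        apply mul_le_mul_of_nonneg_left _ hgpos.le
        linarith
      linarith
    have h4 := monotone_cdf ν h3
    rw [hv] at h4
    linarith

/-- moment consequence. -/
lemma plus_mom (h : Base ν a) {μ : Measure ℝ} (hμ : Plus ν a μ) {g c : ℝ} (hg : 0 < g)
    (hF : ∀ x, 0 ≤ x → cdf μ x ≤ cdf ν (c + g * x)) :
    Integrable (fun y => (max (y - c) 0) ^ 2) ν ∧ A ν c ≤ g ^ 2 * mom2 μ := by
  have := h.prob
  have := hμ.prob
  have key := mom_le (μ₁ := ν) (μ₂ := μ) (g₁ := fun y => max (y - c) 0 / g) (g₂ := fun x => x)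
    (by fun_prop) measurable_id (Eventually.of_forall fun y => by positivity)
    (ae_nonneg hμ.toAdm) (fun t ht => by
      have e1 : {y : ℝ | t < max (y - c) 0 / g} = Ioi (c + g * t) := by
        ext y
        simp only [Set.mem_ofPred_eq, mem_Ioi]
        rw [lt_div_iff₀ hg]
        constructor
        · intro h2
          rcases lt_max_iff.mp h2 with h3 | h3
          · linarith
          · have : 0 ≤ t * g := by positivity
            linarith
        · intro h2
          exact lt_max_iff.mpr (Or.inl (by linarith))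
      have e2 : {x : ℝ | t < x} = Ioi t := rfl
      rw [e1, e2, Ioi_eq, Ioi_eq]
      apply ENNReal.ofReal_le_ofReal
      linarith [hF t ht]) hμ.integ
  obtain ⟨k1, k2⟩ := key
  have hg2 : (g ^ 2) ≠ 0 := by positivity
  have e3 : (fun y => (max (y - c) 0) ^ 2) = fun y => g ^ 2 * (max (y - c) 0 / g) ^ 2 := by
    funext y
    field_simp
  constructor
  · rw [e3]; exact k1.const_mul _
  · unfold A mom2
    rw [e3, integral_const_mul]
    exact mul_le_mul_of_nonneg_left k2 (sq_nonneg g)

lemma sqrt_div_le {x y m A' g : ℝ} (hg : 0 < g) (hx : g * x = y) (hx0 : 0 ≤ x) (hA : 0 < A')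
    (hm : A' ≤ g ^ 2 * m) : x / Real.sqrt m ≤ y / Real.sqrt A' := by
  have hm0 : 0 < m := by
    by_contra hcon
    push Not at hcon
    nlinarith [sq_nonneg g]
  have h1 : Real.sqrt A' ≤ g * Real.sqrt m := by
    rw [Real.sqrt_le_left (by positivity), mul_pow, Real.sq_sqrt hm0.le]
    exact hm
  rw [div_le_div_iff₀ (Real.sqrt_pos.mpr hm0) (Real.sqrt_pos.mpr hA), ← hx]
  calc x * Real.sqrt A' ≤ x * (g * Real.sqrt m) := mul_le_mul_of_nonneg_left h1 hx0
    _ = g * x * Real.sqrt m := by ring

/-- the universal (Markov) bound. -/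
lemma markov {μ : Measure ℝ} (h : Adm μ) {p : ℝ} (h0 : 0 < p) (h1 : p < 1) :
    (quantile μ p) ^ 2 * (1 - p) ≤ mom2 μ := by
  have := h.prob
  obtain ⟨hq, hq0⟩ := q_spec h h0 h1
  set q := quantile μ p
  have key : ∀ x, 0 ≤ x → x < q → x ^ 2 * (1 - p) ≤ mom2 μ := by
    intro x hx hxq
    have h2 : ∫ z, (Ioi x).indicator (fun _ => x ^ 2) z ∂μ ≤ mom2 μ := by
      apply integral_mono_of_nonneg
      · exact Eventually.of_forall fun z => indicator_nonneg (fun _ _ => sq_nonneg _) z
      · exact h.integ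
      · exact Eventually.of_forall fun z => by
          by_cases hz : z ∈ Ioi x
          · simp only [indicator_of_mem hz]
            have hz' : x < z := hz
            nlinarith
          · simp only [indicator_of_notMem hz]
            positivity
    rw [integral_indicator measurableSet_Ioi, setIntegral_const, smul_eq_mul, measureReal_def,
      Ioi_eq, ENNReal.toReal_ofReal (by linarith [cdf_le_one μ x])] at h2
    have h3 : cdf μ x < p := by
      by_contra hcon
      push Not at hcon
      have := (hq x).mp hcon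
      linarith
    have h4 : x ^ 2 * (1 - p) ≤ (1 - cdf μ x) * x ^ 2 := by nlinarith [sq_nonneg x]
    linarith
  rcases eq_or_lt_of_le hq0 with h2 | h2
  · rw [← h2]
    have := h.pos
    norm_num
    exact this.le
  · have hc : Tendsto (fun x : ℝ => x ^ 2 * (1 - p)) (𝓝[<] q) (𝓝 (q ^ 2 * (1 - p))) := by
      have : Continuous fun x : ℝ => x ^ 2 * (1 - p) := by fun_prop
      exact (this.tendsto q).mono_left nhdsWithin_le_nhds
    apply le_of_tendsto hc
    filter_upwards [Ioo_mem_nhdsLT h2] with x hx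
    exact key x hx.1.le hx.2

/-- `F x ≤ W (a + (x/q)(y_p - a))` on `[0, q)` for `F ⪯_c W`. -/
lemma minus_line (h : Base ν a) {μ : Measure ℝ} (hμ : Minus ν a μ) {p : ℝ} (h0 : 0 < p)
    (h1 : p < 1) : 0 < quantile μ p ∧ ∀ x, 0 ≤ x → x < quantile μ p →
      cdf μ x ≤ cdf ν (a + x / quantile μ p * (quantile ν p - a)) := by
  obtain ⟨hy, hay, hyp⟩ := yp_spec h h0 h1
  obtain ⟨hqp, hq0⟩ := q_spec hμ.toAdm h0 h1
  set y := quantile ν p with hydef
  set q := quantile μ p with hqdef
  have hq : 0 < q := by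
    rcases eq_or_lt_of_le hq0 with h2 | h2
    · have := (hqp 0).mpr h2.symm.le
      rw [hμ.noatom] at this
      linarith
    · exact h2
  refine ⟨hq, fun x hx hxq => ?_⟩
  have hlt : ∀ z, z < q → cdf μ z < p := by
    intro z hz
    by_contra hcon
    push Not at hcon
    have := (hqp z).mp hcon
    linarith
  have h0a : ((0:ℝ), a) ∈ {z : ℝ × ℝ | z.1 ∈ suppInt μ ∧ (a ≤ z.2 ∧ cdf ν z.2 < 1) ∧
      cdf μ z.1 ≤ cdf ν z.2} := by
    refine ⟨zero_supp hμ.toAdm, ⟨le_rfl, ?_⟩, ?_⟩
    · simp only [h.zero]; norm_num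
    · simp only [h.zero, hμ.noatom]; exact le_rfl
  have key : ∀ z, x < z → z < q → cdf μ x ≤ cdf ν (a + x / z * (y - a)) := by
    intro z hxz hzq
    have hz0 : 0 < z := hx.trans_lt hxz
    have hmem : (z, y) ∈ {z : ℝ × ℝ | z.1 ∈ suppInt μ ∧ (a ≤ z.2 ∧ cdf ν z.2 < 1) ∧
        cdf μ z.1 ≤ cdf ν z.2} := by
      refine ⟨⟨hz0.le, fun w hw => (hlt w (hw.trans hzq)).trans h1⟩, ⟨hay.le, ?_⟩, ?_⟩
      · simp only [hy]; exact h1
      · simp only [hy]; exact (hlt z hzq).le
    have hθ : x / z ≤ 1 := by rw [div_le_one hz0]; exact hxz.le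
    have hm := hμ.conv h0a hmem (show (0:ℝ) ≤ 1 - x / z by linarith)
      (show (0:ℝ) ≤ x / z by positivity) (by ring)
    have h3 := hm.2.2
    simp only [Prod.smul_mk, Prod.mk_add_mk, smul_eq_mul, mul_zero, zero_add] at h3
    have e1 : x / z * z = x := by field_simp
    have e2 : (1 - x / z) * a + x / z * y = a + x / z * (y - a) := by ring
    rw [e1, e2] at h3
    exact h3
  have hc : Tendsto (fun z : ℝ => cdf ν (a + x / z * (y - a))) (𝓝[<] q)
      (𝓝 (cdf ν (a + x / q * (y - a)))) := by
    have h4 : ContinuousAt (fun z : ℝ => a + x / z * (y - a)) q := by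
      apply ContinuousAt.add continuousAt_const
      apply ContinuousAt.mul _ continuousAt_const
      exact ContinuousAt.div continuousAt_const continuousAt_id hq.ne'
    exact (((cont h).continuousAt.tendsto).comp h4.tendsto).mono_left nhdsWithin_le_nhds
  apply ge_of_tendsto hc
  filter_upwards [Ioo_mem_nhdsLT hxq] with z hz
  exact key z hz.1 hz.2

/-- `∫ min(y - a, K)² dW`. -/
noncomputable def B (ν : Measure ℝ) (a K : ℝ) : ℝ := ∫ y, (min (y - a) K) ^ 2 ∂ν

lemma minus_mom (h : Base ν a) {μ : Measure ℝ} (hμ : Minus ν a μ) {p : ℝ} (h0 : 0 < p)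
    (h1 : p < 1) : B ν a (quantile ν p - a) ≤
      ((quantile ν p - a) / quantile μ p) ^ 2 * mom2 μ := by
  have := h.prob
  have := hμ.prob
  obtain ⟨hy, hay, hyp⟩ := yp_spec h h0 h1
  obtain ⟨hq, hF⟩ := minus_line h hμ h0 h1
  set y := quantile ν p with hydef
  set q := quantile μ p with hqdef
  have hya : 0 < y - a := by linarith
  have key := mom_le (μ₁ := ν) (μ₂ := μ) (g₁ := fun z => min (z - a) (y - a) * (q / (y - a)))
    (g₂ := fun x => x)
    (by fun_prop) measurable_id (by
      filter_upwards [base_ae h] with z hz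
      have : 0 ≤ min (z - a) (y - a) := le_min (by linarith) hya.le
      positivity)
    (ae_nonneg hμ.toAdm) (fun t ht => by
      have e2 : {x : ℝ | t < x} = Ioi t := rfl
      rw [e2]
      rcases lt_or_ge t q with htq | htq
      · have e1 : {z : ℝ | t < min (z - a) (y - a) * (q / (y - a))} ⊆
            Ioi (a + t / q * (y - a)) := by
          intro z hz
          simp only [Set.mem_ofPred_eq] at hz
          rw [mem_Ioi]
          have h2 : min (z - a) (y - a) * (q / (y - a)) ≤ (z - a) * (q / (y - a)) :=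
            mul_le_mul_of_nonneg_right (min_le_left _ _) (by positivity)
          have h3 : t < (z - a) * (q / (y - a)) := hz.trans_le h2
          have h4 : t / q * (y - a) < z - a := by
            rw [mul_div_assoc', lt_div_iff₀ hya] at h3
            rw [div_mul_eq_mul_div, div_lt_iff₀ hq]
            exact h3
          linarith
        refine (measure_mono e1).trans ?_
        rw [Ioi_eq, Ioi_eq]
        apply ENNReal.ofReal_le_ofReal
        linarith [hF t ht htq]
      · have e1 : {z : ℝ | t < min (z - a) (y - a) * (q / (y - a))} = ∅ := by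
          ext z
          simp only [Set.mem_ofPred_eq, mem_empty_iff_false, iff_false, not_lt]
          have h2 : min (z - a) (y - a) * (q / (y - a)) ≤ (y - a) * (q / (y - a)) :=
            mul_le_mul_of_nonneg_right (min_le_right _ _) (by positivity)
          have h3 : (y - a) * (q / (y - a)) = q := by field_simp
          linarith
        rw [e1]; simp) hμ.integ
  obtain ⟨k1, k2⟩ := key
  have e3 : (fun z => (min (z - a) (y - a)) ^ 2) = fun z => ((y - a) / q) ^ 2 *
      (min (z - a) (y - a) * (q / (y - a))) ^ 2 := by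
    funext z
    field_simp
  unfold B mom2
  rw [e3, integral_const_mul]
  exact mul_le_mul_of_nonneg_left k2 (sq_nonneg _)

/-- upper bound for the second moment when `F ⪯_c W`. -/
lemma minus_mom_upper (h : Base ν a) {μ : Measure ℝ} (hμ : Minus ν a μ) {p : ℝ} (h0 : 0 < p)
    (h1 : p < 1) (hi : Integrable (fun y => y ^ 2) ν) :
    mom2 μ ≤ max ((quantile μ p) ^ 2)
      ((quantile μ p / (quantile ν p - a)) ^ 2 * ∫ z, (z - a) ^ 2 ∂ν) := by
  have := h.prob
  have := hμ.prob
  obtain ⟨hy, hay, hyp⟩ := yp_spec h h0 h1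
  obtain ⟨hq, _⟩ := minus_line h hμ h0 h1
  obtain ⟨hqp, _⟩ := q_spec hμ.toAdm h0 h1
  set y := quantile ν p with hydef
  set q := quantile μ p with hqdef
  have hya : 0 < y - a := by linarith
  have hpq : p ≤ cdf μ q := (hqp q).mpr le_rfl
  rcases eq_or_lt_of_le (cdf_le_one μ q) with hA | hB
  · -- all mass at most q
    apply le_max_of_le_left
    have h2 : ∀ᵐ x ∂μ, x ^ 2 ≤ q ^ 2 := by
      have h3 : μ (Ioi q) = 0 := by rw [Ioi_eq, hA]; simp
      have h4 : ∀ᵐ x ∂μ, x ≤ q := by
        rw [ae_iff]
        convert h3 using 2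
        ext x; simp
      filter_upwards [h4, ae_nonneg hμ.toAdm] with x hx hx0
      nlinarith
    have h3 : mom2 μ ≤ ∫ _x, q ^ 2 ∂μ := integral_mono_ae hμ.integ (integrable_const _) h2
    simpa using h3
  · apply le_max_iff.mpr
    set S : Set (ℝ × ℝ) := {z : ℝ × ℝ | z.1 ∈ suppInt μ ∧ (a ≤ z.2 ∧ cdf ν z.2 < 1) ∧
      cdf μ z.1 ≤ cdf ν z.2} with hS
    have hconv : Convex ℝ S := hμ.conv
    have h0a : ((0:ℝ), a) ∈ S := by
      refine ⟨zero_supp hμ.toAdm, ⟨le_rfl, ?_⟩, ?_⟩
      · simp only [h.zero]; norm_num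
      · simp only [h.zero, hμ.noatom]; exact le_rfl
    have claimR : ∀ x u z v, (x, u) ∈ S → (z, v) ∈ S → x < q → q < z →
        (y - u) * (z - q) ≤ (v - y) * (q - x) := by
      intro x u z v hxu hzv hx hz
      have hzx : 0 < z - x := by linarith
      have hmem := hconv hxu hzv (show (0:ℝ) ≤ (z - q) / (z - x) by
        apply div_nonneg <;> linarith) (show (0:ℝ) ≤ (q - x) / (z - x) by
        apply div_nonneg <;> linarith) (by field_simp; ring)
      have h3 := hmem.2.2
      simp only [Prod.smul_mk, Prod.mk_add_mk, smul_eq_mul] at h3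
      have e1 : (z - q) / (z - x) * x + (q - x) / (z - x) * z = q := by field_simp; ring
      rw [e1] at h3
      have h4 := (hyp _).mp (hpq.trans h3)
      have h5 : y * (z - x) ≤ ((z - q) / (z - x) * u + (q - x) / (z - x) * v) * (z - x) :=
        mul_le_mul_of_nonneg_right h4 hzx.le
      have e2 : ((z - q) / (z - x) * u + (q - x) / (z - x) * v) * (z - x) =
          (z - q) * u + (q - x) * v := by field_simp
      rw [e2] at h5
      nlinarith
    -- a point to the right
    obtain ⟨z₀, hz₀q, hz₀1⟩ : ∃ z, q < z ∧ cdf μ z < 1 := by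
      have hc : Tendsto (cdf μ) (𝓝[>] q) (𝓝 (cdf μ q)) :=
        ((cdf μ).right_continuous q).mono_left (nhdsWithin_mono _ Ioi_subset_Ici_self)
      have h2 := hc.eventually (gt_mem_nhds hB)
      obtain ⟨z, hz1, hz2⟩ := (h2.and self_mem_nhdsWithin).exists
      exact ⟨z, hz2, hz1⟩
    have memS : ∀ x t, 0 ≤ x → cdf μ x < t → t < 1 → (x, quantile ν t) ∈ S := by
      intro x t hx hxt ht
      have ht0 : 0 < t := (cdf_nonneg μ x).trans_lt hxt
      obtain ⟨hv, hav, _⟩ := yp_spec h ht0 ht
      refine ⟨⟨hx, fun w hw => (monotone_cdf μ hw.le).trans_lt (hxt.trans ht)⟩, ⟨hav.le, ?_⟩, ?_⟩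
      · simp only [hv]; exact ht
      · simp only [hv]; exact hxt.le
    obtain ⟨t₀, ht₀1, ht₀2⟩ := exists_between hz₀1
    have hright := memS z₀ t₀ (hq.le.trans hz₀q.le) ht₀1 ht₀2
    set Ls : Set ℝ := {s | ∃ x u, (x, u) ∈ S ∧ x < q ∧ s = (y - u) / (q - x)} with hLs
    have hne : Ls.Nonempty := ⟨_, 0, a, h0a, hq, rfl⟩
    have hub : ∀ z v, (z, v) ∈ S → q < z → ∀ s ∈ Ls, s ≤ (v - y) / (z - q) := by
      rintro z v hzv hz s ⟨x, u, hxu, hx, rfl⟩
      rw [div_le_div_iff₀ (by linarith) (by linarith)]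
      exact claimR x u z v hxu hzv hx hz
    have hbd : BddAbove Ls := ⟨_, hub z₀ _ hright hz₀q⟩
    set g := sSup Ls with hg
    have hgq : (y - a) / q ≤ g := by
      apply le_csSup hbd
      exact ⟨0, a, h0a, hq, by rw [sub_zero]⟩
    have hgpos : 0 < g := lt_of_lt_of_le (by positivity) hgq
    have hF : ∀ x, 0 ≤ x → cdf ν (y + g * (x - q)) ≤ cdf μ x := by
      intro x hx
      by_contra hcon
      push Not at hcon
      obtain ⟨t, ht1, ht2⟩ := exists_between hcon
      have htl : t < 1 := ht2.trans_le (cdf_le_one ν _)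
      have ht0 : 0 < t := (cdf_nonneg μ x).trans_lt ht1
      obtain ⟨hv, hav, _⟩ := yp_spec h ht0 htl
      have hmem := memS x t hx ht1 htl
      have hvb : quantile ν t < y + g * (x - q) := by
        by_contra hcon2
        push Not at hcon2
        have := monotone_cdf ν hcon2
        rw [hv] at this
        linarith
      rcases lt_trichotomy x q with hxq | hxq | hxq
      · have h2 : (y - quantile ν t) / (q - x) ≤ g := le_csSup hbd ⟨x, _, hmem, hxq, rfl⟩
        rw [div_le_iff₀ (by linarith)] at h2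
        linarith
      · rw [hxq] at hcon
        simp only [sub_self, mul_zero, add_zero, hy] at hcon
        linarith
      · have h2 : g ≤ (quantile ν t - y) / (x - q) := csSup_le hne (hub x _ hmem hxq)
        rw [le_div_iff₀ (by linarith)] at h2
        linarith
    -- moment bound
    have hi' : Integrable (fun z => (z - a) ^ 2) ν := by
      have h1 : Integrable (fun y : ℝ => 2 * y ^ 2 + 2 * a ^ 2) ν :=
        (hi.const_mul 2).add (integrable_const _)
      refine h1.mono' (by fun_prop) (Eventually.of_forall fun y => ?_)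
      rw [Real.norm_eq_abs, abs_of_nonneg (sq_nonneg _)]
      nlinarith [sq_nonneg (y + a)]
    set T := q / (y - a) with hT
    have hTpos : 0 < T := by positivity
    set sl := 1 / g with hsl
    have hslT : sl ≤ T := by
      rw [hsl, hT, div_le_div_iff₀ hgpos hya]
      rw [div_le_iff₀ hq] at hgq
      linarith
    have hslpos : 0 < sl := by positivity
    have hlin : ∀ z, q + sl * (z - y) = (1 - sl / T) * q + (sl / T) * (T * (z - a)) := by
      intro z
      have e : T * (y - a) = q := by rw [hT]; field_simp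
      have e2 : sl / T * (T * (z - a)) = sl * (z - a) := by field_simp
      have e3 : sl / T * q = sl * (y - a) := by rw [← e]; field_simp
      rw [e2, sub_mul, one_mul, e3]
      ring
    have hi2 : Integrable (fun z => (q + sl * (z - y)) ^ 2) ν := by
      have h1 : Integrable (fun z : ℝ => 2 * sl ^ 2 * z ^ 2 + 2 * (q - sl * y) ^ 2) ν :=
        (hi.const_mul _).add (integrable_const _)
      refine h1.mono' (by fun_prop) (Eventually.of_forall fun z => ?_)
      rw [Real.norm_eq_abs, abs_of_nonneg (sq_nonneg _)]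
      nlinarith [sq_nonneg (sl * z - (q - sl * y))]
    have key := mom_le (μ₁ := μ) (μ₂ := ν) (g₁ := fun x => x) (g₂ := fun z => q + sl * (z - y))
      measurable_id (by fun_prop) (ae_nonneg hμ.toAdm) (by
        filter_upwards [base_ae h] with z hz
        rw [hlin]
        have h2 : sl / T ≤ 1 := by rw [div_le_one hTpos]; exact hslT
        have h3 : 0 ≤ z - a := by linarith
        have h4 : 0 ≤ 1 - sl / T := by linarith
        positivity) (fun t ht => by
        have e1 : {x : ℝ | t < x} = Ioi t := rfl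
        have e2 : {z : ℝ | t < q + sl * (z - y)} = Ioi (y + g * (t - q)) := by
          ext z
          simp only [Set.mem_ofPred_eq, mem_Ioi]
          rw [hsl]
          constructor
          · intro h2
            have h3 : (t - q) < 1 / g * (z - y) := by linarith
            rw [div_mul_eq_mul_div, one_mul, lt_div_iff₀ hgpos] at h3
            linarith
          · intro h2
            have h3 : (t - q) < 1 / g * (z - y) := by
              rw [div_mul_eq_mul_div, one_mul, lt_div_iff₀ hgpos]
              linarith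
            linarith
        rw [e1, e2, Ioi_eq, Ioi_eq]
        apply ENNReal.ofReal_le_ofReal
        linarith [hF t ht]) hi2
    have h5 : ∫ z, (q + sl * (z - y)) ^ 2 ∂ν ≤ (1 - sl / T) * q ^ 2 +
        (sl / T) * (T ^ 2 * ∫ z, (z - a) ^ 2 ∂ν) := by
      have h6 : ∫ z, (q + sl * (z - y)) ^ 2 ∂ν ≤
          ∫ z, ((1 - sl / T) * q ^ 2 + (sl / T) * (T ^ 2 * (z - a) ^ 2)) ∂ν := by
        apply integral_mono hi2
        · exact (integrable_const _).add ((hi'.const_mul _).const_mul _)
        · intro z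
          simp only []
          rw [hlin]
          have h2 : sl / T ≤ 1 := by rw [div_le_one hTpos]; exact hslT
          have h2' : 0 ≤ sl / T := by positivity
          set lam := sl / T
          nlinarith [mul_nonneg (mul_nonneg h2' (sub_nonneg.mpr h2)) (sq_nonneg (q - T * (z - a)))]
      refine h6.trans (le_of_eq ?_)
      rw [integral_add (integrable_const _) ((hi'.const_mul _).const_mul _)]
      simp only [integral_const_mul]
      simp
    have h7 : mom2 μ ≤ (1 - sl / T) * q ^ 2 + (sl / T) * (T ^ 2 * ∫ z, (z - a) ^ 2 ∂ν) :=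
      key.2.trans h5
    have h2 : sl / T ≤ 1 := by rw [div_le_one hTpos]; exact hslT
    have h2' : 0 ≤ sl / T := by positivity
    rcases le_total (q ^ 2) (T ^ 2 * ∫ z, (z - a) ^ 2 ∂ν) with h8 | h8
    · right
      nlinarith
    · left
      nlinarith

end Pool.Agent.Q280.CT
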